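import Pool.Agent.Helper67.EL.Final

set_option autoImplicit false

namespace Pool.Agent.Results.MP_2eaaa0_lc.ExactLevels

open Pool.Agent.Helper67.EQP Pool.Agent.Helper67.LB Pool.Agent.Helper67.EL

open Classical in
/-- For every `b ∈ {0, 1, 2, ..., ∞}` there is an oracle `B` relative to which the polynomial hierarchy
has exactly `b` levels and exact quantum polynomial time contains `PSPACE` and is not contained in
the polynomial hierarchy. Let `N k i` be `Σ_{k+1}` oracle machines, let `F i` be arbitrary oracle
functions which depend only on strings of length at most `space`, and let `M m i` be `Σ_m` oracle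
machines with time bounds `(t n)^c + c`, where `t` is such that `(t n + n)^{a log (t n + n)} < 2^n` for
all `a` and all large `n` (for example `t n = n`: polynomial time). There is an oracle `B` such that
* if `b` is finite, `N b i` accepts `x` if and only if `∃ y_1 ∀ y_2 ... (b quantifiers):
  1 1 κ y_1 y_2 ... ∈ B`, where `κ` is the code of the computation; so `Σ_{b+1} = Σ_b`;
* for every `j < b` the set of the `n` with `∃ y_1 ∀ y_2 ... (j + 1 quantifiers):
  1 0 1^{j+1} 0 1^n 0 y_1 y_2 ... ∈ B` is not accepted by any of the `Σ_j` machines `M j i`; so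
  `Σ_{j+1} ≠ Σ_j`;
* the explicit quantum circuit with the code of `(F i, x)` and the oracle `B`, which has three oracle
  gates and linear size in the length of the code, outputs `F i B x` with probability 1; so
  `PSPACE ⊆ EQP`;
* the quantum circuits with the codes `1^n` output 0 or 1 with probability 1, the language `L` of
  the `n` for which the output is 1 is infinite, and no machine `M m i` with the oracle `B` accepts an
  infinite subset of `L`, whatever `m` is; so `EQP` is not contained in the polynomial hierarchy. -/
theorem result :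
    (∃ Γ : Finset (Matrix (Fin 3 → Bool) (Fin 3 → Bool) ℂ),
      (∀ U ∈ Γ, U ∈ Matrix.unitaryGroup (Fin 3 → Bool) ℂ) ∧
      ∀ κ, (∀ U e, QOp.gate U e ∈ (kcirc κ).ops → U ∈ Γ) ∧
        (∀ l, QOp.query l ∈ (kcirc κ).ops → l.length = 13 * κ.length + 20) ∧
        (kcirc κ).ops.countP QOp.isQuery = 3 ∧ (kcirc κ).ops.length = 109 * κ.length + 158 ∧
        Fintype.card (kcirc κ).W = 25 * κ.length + 38) ∧
    VerySlow (fun n => n) ∧
    ∀ (b : ℕ∞) (N : (k : ℕ) → ℕ → XMachine (k + 1)) (F : ℕ → OFun) (t : ℕ → ℕ), VerySlow t →
      ∀ M : (m : ℕ) → ℕ → TMachine t m, ∃ B : List Bool → Bool,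
        (∀ k : ℕ, b = k → ∀ i x,
          Alt k true (fun y : Fin k → Fin (wid ((N k i).code i x)) → Bool =>
            B (mstr ((N k i).code i x) y) = true) ↔ (N k i).Accepts B x) ∧
        (∀ j : ℕ, (j : ℕ∞) < b → ∀ i, {n | (M j i).Accepts B n} ≠ {n | Alt (j + 1) true
          (fun y : Fin (j + 1) → Fin (4 * (2 * n)) → Bool => B (fstr n y) = true)}) ∧
        (∀ i x, (kcirc ((F i).code i x)).acceptProb B = if (F i).F B x = true then 1 else 0) ∧
        (∀ n, (kcirc (List.replicate n true)).acceptProb B = 0 ∨
          (kcirc (List.replicate n true)).acceptProb B = 1) ∧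
        {n | (kcirc (List.replicate n true)).acceptProb B = 1}.Infinite ∧
        ∀ m i, {n | (M m i).Accepts B n} ⊆
            {n | (kcirc (List.replicate n true)).acceptProb B = 1} →
          {n | (M m i).Accepts B n}.Finite := by
  refine ⟨⟨gateSet, gateSet_unitary, fun κ => ⟨kops_gates κ, kops_query κ, kops_queries κ,
    kops_length κ, kcard κ⟩⟩, verySlow_id, ?_⟩
  intro b N F t ht M
  induction b using ENat.recTopCoe with
  | top =>
    obtain ⟨B, _, h2, h3⟩ := final_aux 0 False (N 0) F ht M
    refine ⟨B, ?_, ?_, h3⟩
    · intro k hk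
      exact absurd hk (ENat.top_ne_coe k)
    · intro j _ i
      exact h2 j (fun h => h.elim) i
  | coe k =>
    obtain ⟨B, h1, h2, h3⟩ := final_aux k True (N k) F ht M
    refine ⟨B, ?_, ?_, h3⟩
    · intro k' hk' i x
      have hkk : k = k' := ENat.coe_inj.mp hk'
      subst hkk
      exact h1 trivial i x
    · intro j hj i
      exact h2 j (fun _ => ENat.coe_lt_coe.mp hj) i

end Pool.Agent.Results.MP_2eaaa0_lc.ExactLevels
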