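import Pool.Agent.Helper67.EQP.Orac
import Pool.Agent.Helper67.EQP.QCount

set_option autoImplicit false

namespace Pool.Agent.Results.MP_2eaaa0_lc.ImmuneOracle

open Pool.Agent.Helper67.EQP

/-- An oracle relative to which exact quantum polynomial time is not contained in the polynomial
hierarchy. The circuits `circ n` are explicit; they have `6n + 20` qubits and `27n + 77` gates, all
from a fixed finite set of unitary three-qubit gates, except for three oracle gates on strings of
length `3n + 10`. For all resource bounds `t` (time), `k` (alternations) with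
`(t n + n)^{a (k n + 1)} < 2^n` for all `a` and large `n` (for example `t n = n`, `k n = 1`: the
polynomial hierarchy) and every countable family of alternating oracle machines with these bounds
there is an oracle `A` such that every `circ n` with the oracle `A` outputs 1 with probability 0 or
1, the language `L` of the `n` for which the probability is 1 is infinite, and no machine of the
family with the oracle `A` accepts an infinite subset of `L`. -/
theorem result :
    (∃ Γ : Finset (Matrix (Fin 3 → Bool) (Fin 3 → Bool) ℂ),
      (∀ U ∈ Γ, U ∈ Matrix.unitaryGroup (Fin 3 → Bool) ℂ) ∧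
      ∀ n, (∀ U e, QOp.gate U e ∈ (circ n).ops → U ∈ Γ) ∧
        (∀ l, QOp.query l ∈ (circ n).ops → l.length = 3 * n + 10) ∧
        (circ n).ops.countP QOp.isQuery = 3 ∧ (circ n).ops.length = 27 * n + 77 ∧
        Fintype.card (circ n).W = 6 * n + 20) ∧
    Slow (fun n => n) (fun _ => 1) ∧
    ∀ t k : ℕ → ℕ, Slow t k → ∀ M : ℕ → PHMachine t k, ∃ A : List Bool → Bool,
      (∀ n, (circ n).acceptProb A = 0 ∨ (circ n).acceptProb A = 1) ∧
      {n | (circ n).acceptProb A = 1}.Infinite ∧
      ∀ i, {n | (M i).Accepts A n} ⊆ {n | (circ n).acceptProb A = 1} →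
        {n | (M i).Accepts A n}.Finite := by
  refine ⟨⟨gateSet, gateSet_unitary, fun n => ⟨circ_gates n, circ_query_length n, circ_queries n,
    circ_length n, circ_card n⟩⟩, slow_poly, ?_⟩
  intro t k hs M
  obtain ⟨X, h1, h2, h3⟩ := exists_oracle hs M
  have hp : ∀ n, (circ n).acceptProb (strA X) = (algo (n + 1) 1 true).acceptProb (X n) :=
    fun n => circ_acceptProb n (strA X) (X n) (strA_enc X n)
  have hy : ∀ n, Yes (n + 1) (X n) → (circ n).acceptProb (strA X) = 1 := by
    intro n hn
    rw [hp]
    exact (three_query (n + 1)).1 _ hn
  have hno : ∀ n, No (n + 1) (X n) → (circ n).acceptProb (strA X) = 0 := by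
    intro n hn
    rw [hp]
    exact (three_query (n + 1)).2 _ hn
  have hiff : {n | (circ n).acceptProb (strA X) = 1} = {n | Yes (n + 1) (X n)} := by
    ext n
    constructor
    · intro h
      rcases h1 n with h4 | h4
      · exact h4
      · have h5 : (circ n).acceptProb (strA X) = 1 := h
        rw [hno n h4] at h5
        exact absurd h5 zero_ne_one
    · exact hy n
  refine ⟨strA X, ?_, ?_, ?_⟩
  · intro n
    rcases h1 n with h4 | h4
    · exact Or.inr (hy n h4)
    · exact Or.inl (hno n h4)
  · rw [hiff]
    exact h2
  · intro i
    rw [hiff]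
    exact h3 i

end Pool.Agent.Results.MP_2eaaa0_lc.ImmuneOracle
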