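import Pool.Agent.Helper67.LB.FLim

set_option autoImplicit false

namespace Pool.Agent.Results.MP_2eaaa0_lc.LocatingBQP

open Pool.Agent.Helper67.EQP Pool.Agent.Helper67.LB

/-- The location of bounded error quantum polynomial time in an infinite relativised polynomial
hierarchy can be prescribed. Let `lam : ℕ → ℕ` be nondecreasing, let `Q i` be quantum oracle
machines and let `M k i` be `Σ_k` oracle machines. There is an oracle `A` such that
* if `Q i` has bounded error relative to `A` then its language is in `Σ_{lam i}` relative to `A`: for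
  some `e` the machine accepts `x` if and only if
  `∃ y_1 ∀ y_2 ... (lam i quantifiers): 1 1 κ y_1 y_2 ... ∈ A`, where `κ` is the code of the
  computation;
* for every `s` with `0 < lam s` there is `e` such that the explicit quantum circuits with the
  codes `1^s 0 1^e 0 1^n`, which have three oracle gates and linear size, output 0 or 1 with
  probability 1 relative to `A`, and the set of the `n` with output 1 is not accepted by any of the
  `Σ_{lam s - 1}` machines `M (lam s - 1) i`;
* for every `j` the set of the `n` with `∃ y_1 ∀ y_2 ... (j + 1 quantifiers):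
  1 0 1^{j+1} 0 1^n 0 y_1 y_2 ... ∈ A` is not accepted by any of the `Σ_j` machines `M j i`.
For `lam` constantly `a` and enumerations of all polynomial time machines: the polynomial hierarchy
is infinite relative to `A`, and `Σ_a` is its first level which contains BQP, and also its first
level which contains EQP. For `lam i = i`: BQP is contained in the polynomial hierarchy, but EQP
is contained in no level `Σ_k`. -/
theorem result :
    (∃ Γ : Finset (Matrix (Fin 3 → Bool) (Fin 3 → Bool) ℂ),
      (∀ U ∈ Γ, U ∈ Matrix.unitaryGroup (Fin 3 → Bool) ℂ) ∧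
      ∀ κ, (∀ U e, QOp.gate U e ∈ (kcirc κ).ops → U ∈ Γ) ∧
        (∀ l, QOp.query l ∈ (kcirc κ).ops → l.length = 13 * κ.length + 20) ∧
        (kcirc κ).ops.countP QOp.isQuery = 3 ∧ (kcirc κ).ops.length = 109 * κ.length + 158 ∧
        Fintype.card (kcirc κ).W = 25 * κ.length + 38) ∧
    ∀ lam : ℕ → ℕ, Monotone lam → ∀ (Q : ℕ → QMachine) (M : (k : ℕ) → ℕ → SMachine k),
      ∃ A : List Bool → Bool,
        (∀ i, (Q i).Bounded A → ∃ e, ∀ x, (Q i).Acc A x ↔
          Alt (lam i) true (fun y : Fin (lam i) → Fin (wid ((Q i).code i e x)) → Bool =>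
            A (mstr ((Q i).code i e x) y) = true)) ∧
        (∀ s, 0 < lam s → ∃ e,
          (∀ n, (kcirc (rcode s e n)).acceptProb A = 0 ∨
            (kcirc (rcode s e n)).acceptProb A = 1) ∧
          ∀ i, {n | (M (lam s - 1) i).Accepts A n} ≠
            {n | (kcirc (rcode s e n)).acceptProb A = 1}) ∧
        ∀ j i, {n | (M j i).Accepts A n} ≠ {n | Alt (j + 1) true
          (fun y : Fin (j + 1) → Fin (4 * n) → Bool => A (fstr n y) = true)} := by
  refine ⟨⟨gateSet, gateSet_unitary, fun κ => ⟨kops_gates κ, kops_query κ, kops_queries κ,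
    kops_length κ, kcard κ⟩⟩, ?_⟩
  intro lam hlam Q M
  obtain ⟨A, E, G, h1, h2, h3, h4, h5⟩ := exists_oracle Q hlam M
  have hprob : ∀ (κ : List Bool) (x : Idx (par κ) → Bool), Reads A κ x →
      (kcirc κ).acceptProb A = (algo (par κ) 1 true).acceptProb x :=
    fun κ x hx => kcirc_acceptProb κ A x hx
  have hyes : ∀ (κ : List Bool) (x : Idx (par κ) → Bool), Reads A κ x → Yes (par κ) x →
      (kcirc κ).acceptProb A = 1 := fun κ x hx hy => by
    rw [hprob κ x hx]
    exact (three_query (par κ)).1 x hy
  have hno : ∀ (κ : List Bool) (x : Idx (par κ) → Bool), Reads A κ x → No (par κ) x →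
      (kcirc κ).acceptProb A = 0 := fun κ x hx hy => by
    rw [hprob κ x hx]
    exact (three_query (par κ)).2 x hy
  refine ⟨A, ?_, ?_, ?_⟩
  · intro i hi
    obtain ⟨e, he⟩ := h3 i hi
    refine ⟨e, fun x => ?_⟩
    rw [h1 i e he x, MB_code]
  · intro s hs
    refine ⟨G s, ?_, ?_⟩
    · intro n
      obtain ⟨x, hx, hy | hn⟩ := h2 s n
      · exact Or.inr (hyes _ x hx hy)
      · exact Or.inl (hno _ x hx hn)
    · intro i heq
      obtain ⟨n, hn⟩ := h4 s hs i
      apply hn
      have h6 : (M (lam s - 1) i).Accepts A n ↔ (kcirc (rcode s (G s) n)).acceptProb A = 1 := by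
        have := Set.ext_iff.mp heq n
        simpa only [Set.mem_setOf_eq] using this
      rw [h6]
      constructor
      · intro h7
        obtain ⟨x, hx, hy | hn'⟩ := h2 s n
        · exact ⟨x, hx, hy⟩
        · rw [hno _ x hx hn'] at h7
          exact absurd h7 (by norm_num)
      · rintro ⟨x, hx, hy⟩
        exact hyes _ x hx hy
  · intro j i heq
    obtain ⟨n, hn⟩ := h5 j i
    apply hn
    have := Set.ext_iff.mp heq n
    simpa only [Set.mem_setOf_eq] using this

end Pool.Agent.Results.MP_2eaaa0_lc.LocatingBQP
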