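import Pool.Agent.Helper67.EQP.CStage
import Pool.Agent.Helper73.NQ.World
import Pool.Agent.Helper74.NQ.NoisyOut

set_option autoImplicit false

namespace Pool.Agent.Results.MP_2eaaa0_lc.NoisyLevels

open Pool.Agent.Helper67.EQP Pool.Agent.Helper67.LB Pool.Agent.Helper67.EL
open Pool.Agent.Helper80.NQ

open Classical in
/-- For every `b ∈ {0, 1, 2, ..., ∞}` there is an oracle `B` relative to which the polynomial
hierarchy has exactly `b` levels and noisy quantum devices without any error correction, which ask
one query between two layers of one-qubit gates, decide all of `PSPACE` and a language which is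
immune against the polynomial hierarchy, whatever the noise rates below 1 are. Let `N k i` be
`Σ_{k+1}` oracle machines, let `F i` be arbitrary oracle functions which depend only on strings of
length at most `space`, and let `M m i` be `Σ_m` oracle machines with time bounds `(t n)^c + c`,
where `t` is such that `(t n + n)^{a log (t n + n)} < 2^n` for all `a` and all large `n` (for
example `t n = n`: polynomial time). There are an oracle `B` and a set `L` such that
* if `b` is finite, `N b i` accepts `x` if and only if `∃ y_1 ∀ y_2 ... (b quantifiers):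
  pad (1 1 κ y_1 y_2 ...) ∈ B`, where `κ` is the code of the computation; so `Σ_{b+1} = Σ_b`;
* for every `j < b` the set of the `n` with `∃ y_1 ∀ y_2 ... (j + 1 quantifiers):
  pad (1 0 1^{j+1} 0 1^n 0 y_1 y_2 ...) ∈ B` is not accepted by any of the `Σ_j` machines `M j i`;
  so `Σ_{j+1} ≠ Σ_j`;
* the noisy devices with the code `κ` of `(F i, x)` output `F i B x`. This means: a run of the
  device of size `M` starts with `2 * Nat.pair |κ| M + 1` qubits in the state `|0⟩`; the steps are
  one-qubit gates, one oracle gate `|z, b⟩ ↦ |z, b ⊕ B(z)⟩`, one-qubit gates; after the preparation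
  and after each step every qubit is depolarised; all qubits are measured and a vote is computed
  from the outcome with one query. If all noise rates `r` (which may depend on the run, the step
  and the qubit) satisfy `16 (|κ| + 1) ≤ (1 - r)^8 M`, then the decision by the sign of the sum of
  the votes of `K` runs is wrong with probability at most `(143/144)^K`;
* in the same sense the noisy devices with the code `1^n` decide whether `n ∈ L`;
* `L` is infinite, and no machine `M m i` with the oracle `B` accepts an infinite subset of `L`,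
  whatever `m` is. -/
theorem result :
    VerySlow (fun n => n) ∧
    ∀ (b : ℕ∞) (N : (k : ℕ) → ℕ → XMachine (k + 1)) (F : ℕ → OFun) (t : ℕ → ℕ), VerySlow t →
      ∀ M : (m : ℕ) → ℕ → TMachine t m, ∃ (B : List Bool → Bool) (L : Set ℕ),
        (∀ k : ℕ, b = k → ∀ i x,
          Alt k true (fun y : Fin k → Fin (wid ((N k i).code i x)) → Bool =>
            B (pad (mstr ((N k i).code i x) y)) = true) ↔ (N k i).Accepts B x) ∧
        (∀ j : ℕ, (j : ℕ∞) < b → ∀ i, {n | (M j i).Accepts B n} ≠ {n | Alt (j + 1) true
          (fun y : Fin (j + 1) → Fin (4 * (2 * n)) → Bool => B (pad (fstr n y)) = true)}) ∧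
        (∀ i x, NoisyOutput B ((F i).code i x) ((F i).F B x)) ∧
        (∀ n, NoisyOutput B (List.replicate n true) (decide (n ∈ L))) ∧
        L.Infinite ∧
        ∀ m i, {n | (M m i).Accepts B n} ⊆ L → {n | (M m i).Accepts B n}.Finite := by
  refine ⟨verySlow_id, ?_⟩
  have aux : ∀ (k : ℕ) (fin : Prop) (N : ℕ → XMachine (k + 1)) (F : ℕ → OFun) (t : ℕ → ℕ),
      VerySlow t → ∀ M : (m : ℕ) → ℕ → TMachine t m, ∃ (B : List Bool → Bool) (L : Set ℕ),
      (fin → ∀ i x, Alt k true (fun y : Fin k → Fin (wid ((N i).code i x)) → Bool =>
        B (pad (mstr ((N i).code i x) y)) = true) ↔ (N i).Accepts B x) ∧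
      (∀ j, (fin → j < k) → ∀ i, {n | (M j i).Accepts B n} ≠ {n | Alt (j + 1) true
        (fun y : Fin (j + 1) → Fin (4 * (2 * n)) → Bool => B (pad (fstr n y)) = true)}) ∧
      (∀ i x, NoisyOutput B ((F i).code i x) ((F i).F B x)) ∧
      (∀ n, NoisyOutput B (List.replicate n true) (decide (n ∈ L))) ∧
      L.Infinite ∧
      ∀ m i, {n | (M m i).Accepts B n} ⊆ L → {n | (M m i).Accepts B n}.Finite := by
    intro k fin N F t ht M
    obtain ⟨B, L, bit, X, hS, hY, hN, h1, h2, h3, h4, h5, h6⟩ :=
      Pool.Agent.Helper73.NQ.exists_noisy_world k fin N F ht M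
    have key : ∀ κ, NoisyOutput B κ (bit κ) := by
      intro κ
      have h := Pool.Agent.Helper74.NQ.noisyOutput_of (hS κ)
      cases hb : bit κ with
      | true => exact h.1 (hY κ hb)
      | false => exact h.2 (hN κ hb)
    refine ⟨B, L, h1, h2, ?_, ?_, h5, h6⟩
    · intro i x
      rw [← h3]
      exact key _
    · intro n
      rw [← h4]
      exact key _
  intro b N F t ht M
  induction b using ENat.recTopCoe with
  | top =>
    obtain ⟨B, L, _, h2, h3, h4, h5, h6⟩ := aux 0 False (N 0) F t ht M
    refine ⟨B, L, ?_, ?_, h3, h4, h5, h6⟩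
    · intro k hk
      exact absurd hk (ENat.top_ne_natCast k)
    · intro j _ i
      exact h2 j (fun h => h.elim) i
  | coe k =>
    obtain ⟨B, L, h1, h2, h3, h4, h5, h6⟩ := aux k True (N k) F t ht M
    refine ⟨B, L, ?_, ?_, h3, h4, h5, h6⟩
    · intro k' hk' i x
      have hkk : k = k' := ENat.natCast_inj.mp hk'
      subst hkk
      exact h1 trivial i x
    · intro j hj i
      exact h2 j (fun _ => ENat.natCast_lt_natCast.mp hj) i

end Pool.Agent.Results.MP_2eaaa0_lc.NoisyLevels
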